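import Pool.Agent.Lib_helper13.Ebe.wSecA

/-!
# The secant bound
-/

namespace Pool.Agent.Lib_helper97.Ebe

open MvPolynomial Module Pool.Agent.Lib_helper26.Ebe Pool.Agent.Lib_helper26.SOS

section core

variable {n ρ d : ℕ} (f : Fin ρ → MvPolynomial (Fin n) ℂ)

/-- the column of the Jacobian matrix -/
noncomputable def wSec_J (x : Fin n → ℂ) (j : Fin n) : Fin ρ → ℂ :=
  fun k => eval x (pderiv j (f k))

/-- the space of the columns of the Jacobian at the points of `L` -/
noncomputable def wSec_T (L : List (Fin n → ℂ)) : Submodule ℂ (Fin ρ → ℂ) :=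
  Submodule.span ℂ {v | ∃ x ∈ L, ∃ j : Fin n, v = wSec_J f x j}

theorem wSec_J_mem {L : List (Fin n → ℂ)} {x : Fin n → ℂ} (hx : x ∈ L) (j : Fin n) :
    wSec_J f x j ∈ wSec_T f L := Submodule.subset_span ⟨x, hx, j, rfl⟩

theorem wSec_T_mono {L L' : List (Fin n → ℂ)} (h : ∀ x ∈ L, x ∈ L') :
    wSec_T f L ≤ wSec_T f L' := by
  apply Submodule.span_mono
  rintro v ⟨x, hx, j, rfl⟩
  exact ⟨x, h x hx, j, rfl⟩

theorem wSec_krl {a : Fin ρ → ℂ} (x : Fin n → ℂ) (j : Fin n) :
    krl a (wSec_J f x j) = eval x (pderiv j (wSec_comb f a)) := by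
  rw [krl_apply]
  unfold wSec_comb wSec_J
  rw [map_sum, map_sum]
  refine Finset.sum_congr rfl fun k _ => ?_
  rw [pderiv_C_mul, map_mul, eval_C]

variable {f}

/-- one more point gives two more dimensions -/
theorem wSec_step2 (hd : d ≠ 0) (hf : LinearIndependent ℂ f)
    (hom : ∀ k, (f k).IsHomogeneous d) {L : List (Fin n → ℂ)}
    (hL : finrank ℂ (wSec_T f L) + 2 ≤ ρ) :
    ∃ x, finrank ℂ (wSec_T f L) + 2 ≤ finrank ℂ (wSec_T f (x :: L)) := by
  obtain ⟨a, b, hab, ha, hb⟩ := exists_le_kr2 (wSec_T f L) hL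
  obtain ⟨x, i, j, hx⟩ := wSec_two hd hf hom hab
  rw [← wSec_krl, ← wSec_krl, ← wSec_krl, ← wSec_krl] at hx
  refine ⟨x, ?_⟩
  have hle : wSec_T f L ≤ wSec_T f (x :: L) :=
    wSec_T_mono f fun y hy => List.mem_cons_of_mem x hy
  have hi : wSec_J f x i ∈ wSec_T f (x :: L) := wSec_J_mem f List.mem_cons_self i
  have hj : wSec_J f x j ∈ wSec_T f (x :: L) := wSec_J_mem f List.mem_cons_self j
  -- the map to the plane
  let ψ : (Fin ρ → ℂ) →ₗ[ℂ] (Fin 2 → ℂ) := LinearMap.pi ![krl a, krl b]
  have hψ : ∀ y, ψ y = ![krl a y, krl b y] := by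
    intro y
    funext l
    fin_cases l <;> rfl
  let ψ' : (wSec_T f (x :: L)) →ₗ[ℂ] (Fin 2 → ℂ) := ψ.domRestrict (wSec_T f (x :: L))
  have hsurj : LinearMap.range ψ' = ⊤ := by
    rw [LinearMap.range_eq_top]
    intro v
    let Δ := krl a (wSec_J f x i) * krl b (wSec_J f x j) -
      krl a (wSec_J f x j) * krl b (wSec_J f x i)
    have hΔ : Δ ≠ 0 := hx
    obtain ⟨u, hu⟩ : ∃ u, u = ((v 0 * krl b (wSec_J f x j) - v 1 * krl a (wSec_J f x j)) / Δ) •
      wSec_J f x i + ((v 1 * krl a (wSec_J f x i) - v 0 * krl b (wSec_J f x i)) / Δ) •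
      wSec_J f x j := ⟨_, rfl⟩
    have hmem : u ∈ wSec_T f (x :: L) := by
      rw [hu]
      exact Submodule.add_mem _ (Submodule.smul_mem _ _ hi) (Submodule.smul_mem _ _ hj)
    refine ⟨⟨u, hmem⟩, ?_⟩
    show ψ u = v
    rw [hψ]
    have e1 : krl a (wSec_J f x i) * krl b (wSec_J f x j) -
      krl a (wSec_J f x j) * krl b (wSec_J f x i) = Δ := rfl
    have ea : krl a u = v 0 := by
      rw [hu, map_add, map_smul, map_smul, smul_eq_mul, smul_eq_mul]
      field_simp
      rw [← e1]
      ring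
    have eb : krl b u = v 1 := by
      rw [hu, map_add, map_smul, map_smul, smul_eq_mul, smul_eq_mul]
      field_simp
      rw [← e1]
      ring
    rw [ea, eb]
    funext l
    fin_cases l <;> rfl
  have h1 := LinearMap.finrank_range_add_finrank_ker ψ'
  rw [hsurj, finrank_top, finrank_fin_fun] at h1
  have h2 : finrank ℂ (wSec_T f L) ≤ finrank ℂ (LinearMap.ker ψ') := by
    let ι : wSec_T f L →ₗ[ℂ] LinearMap.ker ψ' :=
      LinearMap.codRestrict _ (Submodule.inclusion hle) (by
        intro y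
        rw [LinearMap.mem_ker]
        show ψ (y : Fin ρ → ℂ) = 0
        rw [hψ]
        have e1 : krl a (y : Fin ρ → ℂ) = 0 := ha y.2
        have e2 : krl b (y : Fin ρ → ℂ) = 0 := hb y.2
        rw [e1, e2]
        funext l
        fin_cases l <;> rfl)
    apply LinearMap.finrank_le_finrank_of_injective (f := ι)
    intro y y' h
    have h3 := congrArg (fun z : LinearMap.ker ψ' =>
      (((z : LinearMap.ker ψ') : wSec_T f (x :: L)) : Fin ρ → ℂ)) h
    exact Subtype.ext h3
  omega

theorem wSec_step1 (hd : d ≠ 0) (hf : LinearIndependent ℂ f)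
    (hom : ∀ k, (f k).IsHomogeneous d) {L : List (Fin n → ℂ)}
    (hL : finrank ℂ (wSec_T f L) < ρ) :
    ∃ x, finrank ℂ (wSec_T f L) < finrank ℂ (wSec_T f (x :: L)) := by
  obtain ⟨a, ha0, ha⟩ := exists_le_kr (wSec_T f L) hL
  obtain ⟨x, i, hx⟩ := wSec_one hd hf hom ha0
  rw [← wSec_krl] at hx
  refine ⟨x, ?_⟩
  have hle : wSec_T f L ≤ wSec_T f (x :: L) :=
    wSec_T_mono f fun y hy => List.mem_cons_of_mem x hy
  apply Submodule.finrank_lt_finrank_of_lt
  refine lt_of_le_of_ne hle fun he => hx ?_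
  have : wSec_J f x i ∈ wSec_T f L := he ▸ wSec_J_mem f List.mem_cons_self i
  exact ha this

theorem wSec_T_single_le (x : Fin n → ℂ) : finrank ℂ (wSec_T f [x]) ≤ n := by
  have : wSec_T f [x] = Submodule.span ℂ (Set.range (wSec_J f x)) := by
    unfold wSec_T
    congr 1
    ext v
    constructor
    · rintro ⟨y, hy, j, rfl⟩
      rw [List.mem_singleton] at hy
      subst hy
      exact ⟨j, rfl⟩
    · rintro ⟨j, rfl⟩
      exact ⟨x, List.mem_singleton.2 rfl, j, rfl⟩
  rw [this]
  refine (finrank_range_le_card (wSec_J f x)).trans ?_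
  simp

variable (m : Fin n → Fin n → Fin ρ → ℂ)

/-- the matrix of linear forms -/
noncomputable def wSec_M (y : Fin ρ → ℂ) : Matrix (Fin n) (Fin n) ℂ :=
  Matrix.of fun i j => ∑ k, m i j k * y k

theorem wSec_M_add (y y' : Fin ρ → ℂ) : wSec_M m (y + y') = wSec_M m y + wSec_M m y' := by
  ext i j
  simp only [wSec_M, Matrix.of_apply, Matrix.add_apply, Pi.add_apply, mul_add,
    Finset.sum_add_distrib]

theorem wSec_M_zero : wSec_M m 0 = 0 := by
  ext i j
  simp [wSec_M]

/-- the linear map `y ↦ M(y) x` -/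
noncomputable def wSec_φ (x : Fin n → ℂ) : (Fin ρ → ℂ) →ₗ[ℂ] (Fin n → ℂ) where
  toFun y := fun i => ∑ j, ∑ k, m i j k * (x j * y k)
  map_add' y y' := by
    funext i
    simp only [Pi.add_apply, mul_add, Finset.sum_add_distrib]
  map_smul' c y := by
    funext i
    simp only [Pi.smul_apply, smul_eq_mul, RingHom.id_apply, Finset.mul_sum]
    exact Finset.sum_congr rfl fun j _ => Finset.sum_congr rfl fun k _ => by ring

variable {m}

theorem wSec_col (h1 : ∀ i, ∑ j, ∑ k, C (m i j k) * (X j * f k) = 0) (x : Fin n → ℂ)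
    (l : Fin n) : (wSec_M m (fun k => eval x (f k))).col l = - wSec_φ m x (wSec_J f x l) := by
  classical
  funext i
  have h2 := congrArg (fun g => eval x (pderiv l g)) (h1 i)
  simp only [map_sum, map_zero, pderiv_C, pderiv_mul, pderiv_X, map_mul, map_add, eval_C,
    eval_X, zero_mul, zero_add] at h2
  have h3 : ∀ j, ∑ k, m i j k * (eval x (Pi.single (M := fun _ => MvPolynomial (Fin n) ℂ)
      l 1 j) * eval x (f k) + x j * eval x (pderiv l (f k))) =
      (if j = l then ∑ k, m i l k * eval x (f k) else 0) +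
        ∑ k, m i j k * (x j * eval x (pderiv l (f k))) := by
    intro j
    by_cases hj : j = l
    · subst hj
      rw [if_pos rfl, ← Finset.sum_add_distrib]
      refine Finset.sum_congr rfl fun k _ => ?_
      rw [Pi.single_eq_same, map_one]
      ring
    · rw [if_neg hj, zero_add]
      refine Finset.sum_congr rfl fun k _ => ?_
      rw [Pi.single_eq_of_ne hj, map_zero]
      ring
  rw [Finset.sum_congr rfl fun j _ => h3 j, Finset.sum_add_distrib, Finset.sum_ite_eq',
    if_pos (Finset.mem_univ l)] at h2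
  rw [Pi.neg_apply]
  exact eq_neg_of_add_eq_zero_left h2

theorem wSec_finrank_map {S : Submodule ℂ (Fin ρ → ℂ)} (φ : (Fin ρ → ℂ) →ₗ[ℂ] (Fin n → ℂ))
    {v : Fin ρ → ℂ} (hv : v ∈ S) (hv0 : v ≠ 0) (hφ : φ v = 0) :
    finrank ℂ (S.map φ) + 1 ≤ finrank ℂ S := by
  have h1 := LinearMap.finrank_range_add_finrank_ker (φ.domRestrict S)
  rw [LinearMap.range_domRestrict] at h1
  have h2 : finrank ℂ (LinearMap.ker (φ.domRestrict S)) ≠ 0 := by
    intro h0
    rw [Submodule.finrank_eq_zero] at h0
    have h3 : (⟨v, hv⟩ : S) ∈ LinearMap.ker (φ.domRestrict S) := hφ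
    rw [h0, Submodule.mem_bot] at h3
    exact hv0 (congrArg Subtype.val h3)
  omega

theorem wSec_rank (hd : d ≠ 0) (hom : ∀ k, (f k).IsHomogeneous d)
    (h1 : ∀ i, ∑ j, ∑ k, C (m i j k) * (X j * f k) = 0) (x : Fin n → ℂ) :
    (wSec_M m (fun k => eval x (f k))).rank ≤ finrank ℂ (wSec_T f [x]) - 1 := by
  classical
  by_cases hx : (fun k => eval x (f k)) = 0
  · rw [hx, wSec_M_zero, Matrix.rank_zero]
    exact Nat.zero_le _
  · have h2 : (wSec_M m (fun k => eval x (f k))).rank ≤
        finrank ℂ ((wSec_T f [x]).map (wSec_φ m x)) := by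
      rw [Matrix.rank_eq_finrank_span_cols]
      apply Submodule.finrank_mono
      rw [Submodule.span_le]
      rintro _ ⟨l, rfl⟩
      rw [wSec_col h1]
      exact Submodule.neg_mem _ ⟨_, wSec_J_mem f (List.mem_singleton.2 rfl) l, rfl⟩
    have h3 : (fun k => eval x (f k)) ∈ wSec_T f [x] := by
      have h4 : (fun k => eval x (f k)) = ((d : ℂ)⁻¹) • ∑ j, x j • wSec_J f x j := by
        funext k
        have h5 := congrArg (eval x) (wSec_euler (hom k))
        rw [map_sum, map_mul, eval_C] at h5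
        simp only [Pi.smul_apply, Finset.sum_apply, smul_eq_mul]
        have h6 : ∑ j, x j * wSec_J f x j k = (d : ℂ) * eval x (f k) := by
          rw [← h5]
          refine Finset.sum_congr rfl fun j _ => ?_
          rw [map_mul, eval_X]
          rfl
        rw [h6, ← mul_assoc, inv_mul_cancel₀ (by exact_mod_cast hd), one_mul]
      rw [h4]
      exact Submodule.smul_mem _ _ (Submodule.sum_mem _ fun j _ =>
        Submodule.smul_mem _ _ (wSec_J_mem f (List.mem_singleton.2 rfl) j))
    have h4 : wSec_φ m x (fun k => eval x (f k)) = 0 := by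
      funext i
      have h5 := congrArg (eval x) (h1 i)
      simp only [map_sum, map_mul, eval_C, eval_X, map_zero] at h5
      exact h5
    have h5 := wSec_finrank_map (wSec_φ m x) h3 hx h4
    omega

theorem wSec_rank_add (A B : Matrix (Fin n) (Fin n) ℂ) : (A + B).rank ≤ A.rank + B.rank := by
  rw [Matrix.rank_eq_finrank_span_cols, Matrix.rank_eq_finrank_span_cols,
    Matrix.rank_eq_finrank_span_cols]
  refine le_trans (Submodule.finrank_mono ?_) (Submodule.finrank_add_le_finrank_add_finrank _ _)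
  rw [Submodule.span_le]
  rintro _ ⟨l, rfl⟩
  have : (A + B).col l = A.col l + B.col l := by
    funext i
    rfl
  rw [this]
  exact Submodule.add_mem_sup (Submodule.subset_span ⟨l, rfl⟩) (Submodule.subset_span ⟨l, rfl⟩)

theorem wSec_rank_sum {K : ℕ} (hK : ∀ x, (wSec_M m (fun k => eval x (f k))).rank ≤ K)
    {ι : Type*} (s : Finset ι) (x : ι → Fin n → ℂ) :
    (wSec_M m (∑ a ∈ s, fun k => eval (x a) (f k))).rank ≤ s.card * K := by
  classical
  induction s using Finset.induction_on with
  | empty => rw [Finset.sum_empty, wSec_M_zero, Matrix.rank_zero]; exact Nat.zero_le _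
  | insert a s ha ih =>
    rw [Finset.sum_insert ha, wSec_M_add, Finset.card_insert_of_notMem ha]
    refine (wSec_rank_add _ _).trans ?_
    have := hK (x a)
    have e : (s.card + 1) * K = s.card * K + K := by ring
    omega

/-- the spaces of the Jacobian columns at few points are proper -/
theorem wSec_proper {K : ℕ} (hK : ∀ x, (wSec_M m (fun k => eval x (f k))).rank ≤ K)
    {k0 : Fin ρ} (h2 : ∀ i j, m i j k0 = if i = j then 1 else 0) {L : List (Fin n → ℂ)}
    (hL : L.length * K < n) : wSec_T f L ≠ ⊤ := by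
  classical
  intro htop
  let F : Fin ρ → MvPolynomial (Fin L.length × Fin n) ℂ :=
    fun k => ∑ a, rename (fun j => (a, j)) (f k)
  let x0 : Fin L.length × Fin n → ℂ := fun z => L.get z.1 z.2
  have hF : ∀ (a : Fin L.length) (j : Fin n) (k : Fin ρ),
      pderiv (a, j) (F k) = rename (fun j => (a, j)) (pderiv j (f k)) := by
    intro a j k
    show pderiv (a, j) (∑ a, rename (fun j => (a, j)) (f k)) = _
    rw [map_sum, Finset.sum_eq_single a]
    · have hinj : Function.Injective (fun j : Fin n => (a, j)) := fun i i' h =>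
        (Prod.mk.inj h).2
      exact pderiv_rename hinj j (f k)
    · intro b _ hb
      apply pderiv_eq_zero_of_notMem_vars
      intro hmem
      have := vars_rename (fun j => (b, j)) (f k) hmem
      rw [Finset.mem_image] at this
      obtain ⟨i, _, hi⟩ := this
      exact hb (Prod.mk.inj hi).1
    · intro h
      exact (h (Finset.mem_univ a)).elim
  have hspan : Submodule.span ℂ (Set.range fun t => (fun k => eval x0 (pderiv t (F k)) :
      Fin ρ → ℂ)) = ⊤ := by
    rw [eq_top_iff, ← htop]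
    apply Submodule.span_mono
    rintro v ⟨x, hx, j, rfl⟩
    obtain ⟨a, ha⟩ := List.get_of_mem hx
    refine ⟨(a, j), ?_⟩
    funext k
    simp only [hF]
    rw [eval_rename]
    unfold wSec_J
    rw [← ha]
    rfl
  let P : MvPolynomial (Fin ρ) ℂ := (Matrix.of fun i j => ∑ k, C (m i j k) * X k :
    Matrix (Fin n) (Fin n) (MvPolynomial (Fin ρ) ℂ)).det
  have hP : ∀ y, eval y P = (wSec_M m y).det := by
    intro y
    show eval y (Matrix.det _) = _
    rw [RingHom.map_det]
    congr 1
    ext i j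
    simp [wSec_M]
  have hP0 : P = 0 := by
    apply wSec_jc F x0 hspan P.totalDegree
    · intro s hs
      apply coeff_eq_zero_of_totalDegree_lt
      exact hs
    · apply MvPolynomial.funext
      intro y
      rw [eval_aeval', hP, map_zero]
      have hy : (fun k => eval y (F k)) = ∑ a : Fin L.length, fun k =>
          eval (fun j => y (a, j)) (f k) := by
        funext k
        rw [Finset.sum_apply]
        show eval y (∑ a, rename (fun j => (a, j)) (f k)) = _
        rw [map_sum]
        exact Finset.sum_congr rfl fun a _ => by rw [eval_rename]; rfl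
      rw [hy]
      by_contra hdet
      have hu : IsUnit (wSec_M m (∑ a : Fin L.length, fun k =>
          eval (fun j => y (a, j)) (f k))) := by
        rw [Matrix.isUnit_iff_isUnit_det]
        exact isUnit_iff_ne_zero.2 hdet
      have h3 := Matrix.rank_of_isUnit _ hu
      have h4 := wSec_rank_sum hK Finset.univ (fun (a : Fin L.length) j => y (a, j))
      rw [h3, Fintype.card_fin, Finset.card_univ, Fintype.card_fin] at h4
      omega
  have h3 := hP (Pi.single k0 1)
  rw [hP0, map_zero] at h3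
  have h4 : wSec_M m (Pi.single k0 1) = 1 := by
    ext i j
    simp only [wSec_M, Matrix.of_apply, Matrix.one_apply]
    rw [Finset.sum_eq_single k0, Pi.single_eq_same, mul_one, h2]
    · intro b _ hb
      rw [Pi.single_eq_of_ne hb, mul_zero]
    · intro h
      exact (h (Finset.mem_univ _)).elim
  rw [h4, Matrix.det_one] at h3
  exact zero_ne_one h3

/-- The secant bound for a matrix of linear forms. -/
theorem wSec_core (hn : 1 ≤ n) (hd : d ≠ 0) (hf : LinearIndependent ℂ f)
    (hom : ∀ k, (f k).IsHomogeneous d)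
    (h1 : ∀ i, ∑ j, ∑ k, C (m i j k) * (X j * f k) = 0) {k0 : Fin ρ}
    (h2 : ∀ i j, m i j k0 = if i = j then 1 else 0) :
    ∃ k, 1 ≤ k ∧ k < n ∧ k + 2 * ((n - 1) / k) ≤ ρ := by
  classical
  -- the maximal rank of the Jacobian
  obtain ⟨x0, hx0⟩ : ∃ x0 : Fin n → ℂ, ∀ x, finrank ℂ (wSec_T f [x]) ≤
      finrank ℂ (wSec_T f [x0]) := by
    have hne : {r | ∃ x : Fin n → ℂ, r = finrank ℂ (wSec_T f [x])}.Nonempty := ⟨_, 0, rfl⟩
    have hbd : BddAbove {r | ∃ x : Fin n → ℂ, r = finrank ℂ (wSec_T f [x])} := by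
      refine ⟨n, ?_⟩
      rintro _ ⟨x, rfl⟩
      exact wSec_T_single_le x
    obtain ⟨x0, hx0⟩ := Nat.sSup_mem hne hbd
    refine ⟨x0, fun x => ?_⟩
    rw [← hx0]
    exact le_csSup hbd ⟨x, rfl⟩
  obtain ⟨K, hK⟩ : ∃ K, K = finrank ℂ (wSec_T f [x0]) := ⟨_, rfl⟩
  rw [← hK] at hx0
  have hKn : K ≤ n := hK ▸ wSec_T_single_le x0
  have hrk : ∀ x, (wSec_M m (fun k => eval x (f k))).rank ≤ K - 1 := by
    intro x
    have := wSec_rank hd hom h1 x
    have := hx0 x
    omega
  have hK2 : 2 ≤ K := by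
    by_contra hlt
    have h3 : ∀ x, wSec_M m (fun k => eval x (f k)) = 0 := by
      intro x
      have h4 := hrk x
      have h5 : (wSec_M m (fun k => eval x (f k))).rank = 0 := by omega
      rw [Matrix.rank_eq_finrank_span_cols, Submodule.finrank_eq_zero] at h5
      ext i j
      have h6 : (wSec_M m (fun k => eval x (f k))).col j ∈
          Submodule.span ℂ (Set.range (wSec_M m (fun k => eval x (f k))).col) :=
        Submodule.subset_span ⟨j, rfl⟩
      rw [h5, Submodule.mem_bot] at h6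
      exact congrFun h6 i
    have h4 : wSec_comb f (m ⟨0, hn⟩ ⟨0, hn⟩) = 0 := by
      apply MvPolynomial.funext
      intro x
      have := congrFun (congrFun (h3 x) ⟨0, hn⟩) ⟨0, hn⟩
      rw [map_zero]
      unfold wSec_comb
      rw [map_sum]
      simp only [map_mul, eval_C]
      exact this
    by_cases h5 : m ⟨0, hn⟩ ⟨0, hn⟩ = 0
    · have h6 := h2 ⟨0, hn⟩ ⟨0, hn⟩
      rw [h5, if_pos rfl] at h6
      simp at h6
    · exact wSec_comb_ne hf h5 h4
  obtain ⟨k, rfl⟩ : ∃ k, K = k + 1 := ⟨K - 1, by omega⟩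
  rw [Nat.add_sub_cancel] at hrk
  have hprop : ∀ L : List (Fin n → ℂ), L.length ≤ (n - 1) / k →
      finrank ℂ (wSec_T f L) < ρ := by
    intro L hL
    have h3 : L.length * k < n := by
      have h4 : L.length * k ≤ (n - 1) / k * k := Nat.mul_le_mul_right _ hL
      have h5 : (n - 1) / k * k ≤ n - 1 := Nat.div_mul_le_self _ _
      omega
    have h4 := wSec_proper hrk h2 h3
    have h5 := Submodule.finrank_lt h4
    rwa [finrank_fin_fun] at h5
  refine ⟨k, by omega, by omega, ?_⟩
  have hr : 1 ≤ (n - 1) / k := (Nat.one_le_div_iff (by omega)).2 (by omega)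
  have key : ∀ i, 1 ≤ i → i ≤ (n - 1) / k → ∃ L : List (Fin n → ℂ), L.length = i ∧
      k + 1 + 2 * (i - 1) ≤ finrank ℂ (wSec_T f L) := by
    intro i hi
    induction i, hi using Nat.le_induction with
    | base => exact fun _ => ⟨[x0], rfl, by rw [← hK]⟩
    | succ i hi ih =>
      intro hi'
      obtain ⟨L, hLl, hL⟩ := ih (by omega)
      by_cases h3 : finrank ℂ (wSec_T f L) + 2 ≤ ρ
      · obtain ⟨x, hx⟩ := wSec_step2 hd hf hom h3
        exact ⟨x :: L, by rw [List.length_cons, hLl], by omega⟩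
      · exfalso
        obtain ⟨x, hx⟩ := wSec_step1 hd hf hom (hprop L (by omega))
        have h4 := hprop (x :: L) (by rw [List.length_cons, hLl]; exact hi')
        omega
  obtain ⟨L, hLl, hL⟩ := key _ hr le_rfl
  have h3 := hprop L hLl.le
  omega

end core

variable {n m D ρ : ℕ} {p : Fin m → MvPolynomial (Fin n) ℂ}
    {A : MvPolynomial (Fin n ⊕ Fin n) ℂ} {V : Submodule ℂ (MvPolynomial (Fin n) ℂ)}
    {f : Fin ρ → MvPolynomial (Fin n) ℂ} {ε : Fin ρ → ℝ}

theorem wSec_hom (s : Setting n m D ρ p A V f ε) (hn : 1 ≤ n) :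
    ∀ k, (f k).IsHomogeneous (D - 1) := by
  have hA := s.hA
  rw [s.hAe] at hA
  have h1 : Submodule.span ℂ (Set.range f) ≤ homogeneousSubmodule (Fin n) ℂ (D - 1) := by
    apply span_le_of_gen_dg s.hf s.hε
    refine (gen_ne_zero hn).mono fun b hb => ?_
    rw [mem_homogeneousSubmodule]
    apply isHomogeneous_of_lf_mul hb
    have h2 := congrArg (sp b) hA
    rw [map_mul, sp_q'] at h2
    rw [← h2, map_sum]
    refine IsHomogeneous.sum _ _ _ fun i _ => ?_
    rw [map_mul, sp_inl, sp_inr]
    exact (s.hhom i).mul (isHomogeneous_C _ _)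
  intro k
  have := h1 (Submodule.subset_span ⟨k, rfl⟩)
  rwa [mem_homogeneousSubmodule] at this

theorem wSec_rel (s : Setting n m D ρ p A V f ε) {k0 : Fin ρ} (hk0 : ε k0 = -1) (i : Fin n) :
    ∃ c : Fin n × Fin ρ → ℂ, (∀ j, c (j, k0) = 0) ∧
      X i * f k0 = ∑ z, C (c z) * (X z.1 * f z.2) := by
  classical
  have hA := s.hA
  rw [s.hAe] at hA
  unfold dg at hA
  rw [q_mul_diag] at hA
  have h1 := psd_range (ι := Fin n × Fin ρ) (κ := Fin m) (μ := Fin n × Fin ρ)
    (fun z => if ε z.2 = 1 then 0 else X z.1 * f z.2) p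
    (fun z => if ε z.2 = 1 then X z.1 * f z.2 else 0) (by
      rw [hA, ← Finset.sum_add_distrib]
      refine Finset.sum_congr rfl fun z _ => ?_
      by_cases hz : ε z.2 = 1
      · simp only [hz, if_true, map_zero, zero_mul, zero_add, Complex.ofReal_one, C_1, one_mul]
      · have hz' := (s.hε z.2).resolve_left hz
        rw [if_neg hz, if_neg hz, hz']
        simp)
  have h2 : X i * f k0 ∈ Submodule.span ℂ (Set.range fun z : Fin n × Fin ρ =>
      if ε z.2 = 1 then X z.1 * f z.2 else 0) := by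
    apply h1
    refine Submodule.subset_span ⟨(i, k0), ?_⟩
    have : ε k0 ≠ 1 := by rw [hk0]; norm_num
    simp only [if_neg this]
  rw [Submodule.mem_span_range_iff_exists_fun] at h2
  obtain ⟨c, hc⟩ := h2
  refine ⟨fun z => if ε z.2 = 1 then c z else 0, ?_, ?_⟩
  · intro j
    have : ε k0 ≠ 1 := by rw [hk0]; norm_num
    simp only [if_neg this]
  · rw [← hc]
    refine Finset.sum_congr rfl fun z _ => ?_
    by_cases hz : ε z.2 = 1
    · simp only [hz, if_true, smul_eq_C_mul]
    · simp only [hz, if_false, smul_zero, C_0, zero_mul]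

/-- BLOCK S: the secant bound. -/
theorem wSec_pr (s : Setting n m D ρ p A V f ε) (hn : 2 ≤ n) :
    ∃ k, 1 ≤ k ∧ k < n ∧ k + 2 * ((n - 1) / k) ≤ ρ := by
  classical
  obtain ⟨k0, hk0⟩ := s.hne
  choose c hc0 hc using wSec_rel s hk0
  have hD := s.hD
  refine wSec_core (d := D - 1) (m := fun i j k => (if i = j ∧ k = k0 then 1 else 0) -
    c i (j, k)) (k0 := k0) (by omega) (by omega) s.hf (wSec_hom s (by omega)) ?_ ?_
  · intro i
    have h1 : ∀ j k, C ((if i = j ∧ k = k0 then (1 : ℂ) else 0) - c i (j, k)) *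
        (X j * f k) = (if i = j ∧ k = k0 then X i * f k0 else 0) -
          C (c i (j, k)) * (X j * f k) := by
      intro j k
      rw [C_sub, sub_mul]
      congr 1
      by_cases h : i = j ∧ k = k0
      · rw [if_pos h, if_pos h, C_1, one_mul, h.1, h.2]
      · rw [if_neg h, if_neg h, C_0, zero_mul]
    simp only [h1, Finset.sum_sub_distrib]
    have h2 := hc i
    rw [Fintype.sum_prod_type] at h2
    rw [← h2, sub_eq_zero, Finset.sum_eq_single i, Finset.sum_eq_single k0]
    · simp
    · intro b _ hb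
      rw [if_neg]
      exact fun h => hb h.2
    · intro h
      exact (h (Finset.mem_univ _)).elim
    · intro b _ hb
      apply Finset.sum_eq_zero
      intro k _
      rw [if_neg]
      exact fun h => hb h.1.symm
    · intro h
      exact (h (Finset.mem_univ _)).elim
  · intro i j
    simp only [hc0, sub_zero, and_true]

end Pool.Agent.Lib_helper97.Ebe
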