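import Pool.Agent.Lib_helper97.Ebe.XDefs

/-!
# The secant bound: preparations
-/

namespace Pool.Agent.Lib_helper97.Ebe

open MvPolynomial Module Pool.Agent.Lib_helper26.Ebe Pool.Agent.Lib_helper26.SOS

/-! ### The Jacobian criterion -/

theorem wSec_chain {τ : Type*} {ρ : ℕ} (F : Fin ρ → MvPolynomial τ ℂ) (t : τ)
    (P : MvPolynomial (Fin ρ) ℂ) :
    pderiv t (aeval F P) = ∑ k, aeval F (pderiv k P) * pderiv t (F k) := by
  classical
  induction P using MvPolynomial.induction_on with
  | C a =>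
    simp [MvPolynomial.algHom_C, MvPolynomial.algebraMap_eq]
  | add p q hp hq =>
    simp only [map_add, hp, hq, add_mul, Finset.sum_add_distrib]
  | mul_X p k hp =>
    rw [map_mul, aeval_X, pderiv_mul, hp]
    simp only [pderiv_mul, pderiv_X, map_add, map_mul, aeval_X, add_mul,
      Finset.sum_add_distrib, Finset.sum_mul]
    congr 1
    · exact Finset.sum_congr rfl fun i _ => by ring
    · rw [Finset.sum_eq_single k]
      · simp
      · intro i _ hi
        rw [Pi.single_eq_of_ne (Ne.symm hi)]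
        simp
      · simp

theorem wSec_ker {τ : Type*} {ρ : ℕ} (F : Fin ρ → MvPolynomial τ ℂ) (x0 : τ → ℂ)
    (h : Submodule.span ℂ (Set.range fun t => (fun k => eval x0 (pderiv t (F k)) :
      Fin ρ → ℂ)) = ⊤) (Q : Fin ρ → MvPolynomial τ ℂ)
    (hQ : ∀ t, ∑ k, Q k * pderiv t (F k) = 0) : Q = 0 := by
  classical
  obtain ⟨κ, a, -, hspan, hli⟩ := exists_linearIndependent' ℂ
    (fun t => (fun k => eval x0 (pderiv t (F k)) : Fin ρ → ℂ))
  rw [h] at hspan
  let bas : Module.Basis κ ℂ (Fin ρ → ℂ) := Module.Basis.mk hli hspan.ge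
  have : Fintype κ := FiniteDimensional.fintypeBasisIndex bas
  have hcard : Fintype.card κ = ρ := by
    rw [← Module.finrank_eq_card_basis bas]
    simp
  let e : Fin ρ ≃ κ := (Fintype.equivFinOfCardEq hcard).symm
  let B : Matrix (Fin ρ) (Fin ρ) (MvPolynomial τ ℂ) :=
    Matrix.of fun i k => pderiv (a (e i)) (F k)
  have hB : B.det ≠ 0 := by
    intro h0
    have h1 : eval x0 B.det = 0 := by rw [h0, map_zero]
    rw [RingHom.map_det] at h1
    have h2 : LinearIndependent ℂ (fun i : Fin ρ => ((eval x0).mapMatrix B) i) := by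
      have := hli.comp e e.injective
      exact this
    rw [← Matrix.row_def, Matrix.linearIndependent_rows_iff_isUnit,
      Matrix.isUnit_iff_isUnit_det, h1] at h2
    exact not_isUnit_zero h2
  apply Matrix.eq_zero_of_mulVec_eq_zero hB
  funext i
  have := hQ (a (e i))
  show ∑ k, pderiv (a (e i)) (F k) * Q k = 0
  rw [← this]
  exact Finset.sum_congr rfl fun k _ => mul_comm _ _

theorem wSec_const {ρ : ℕ} {τ : Type*} (F : Fin ρ → MvPolynomial τ ℂ)
    {P : MvPolynomial (Fin ρ) ℂ} (h : ∀ m, m ≠ 0 → coeff m P = 0) (h0 : aeval F P = 0) :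
    P = 0 := by
  classical
  have h1 : P = C (coeff 0 P) := by
    ext m
    rw [coeff_C]
    by_cases hm : 0 = m
    · rw [if_pos hm, hm]
    · rw [if_neg hm]
      exact h m (Ne.symm hm)
  rw [h1, algHom_C, MvPolynomial.algebraMap_eq] at h0
  have h2 := C_injective τ ℂ (h0.trans C_0.symm)
  rw [h1, h2, C_0]

theorem wSec_jc {τ : Type*} {ρ : ℕ} (F : Fin ρ → MvPolynomial τ ℂ) (x0 : τ → ℂ)
    (h : Submodule.span ℂ (Set.range fun t => (fun k => eval x0 (pderiv t (F k)) :
      Fin ρ → ℂ)) = ⊤) (N : ℕ) : ∀ (P : MvPolynomial (Fin ρ) ℂ),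
    (∀ m, N < m.degree → coeff m P = 0) → aeval F P = 0 → P = 0 := by
  classical
  induction N with
  | zero =>
    intro P hP h0
    refine wSec_const F (fun m hm => hP m ?_) h0
    rw [Nat.pos_iff_ne_zero]
    exact fun hm0 => hm ((Finsupp.degree_eq_zero_iff m).1 hm0)
  | succ N ih =>
    intro P hP h0
    have h1 : (fun k => aeval F (pderiv k P)) = 0 := by
      apply wSec_ker F x0 h
      intro t
      rw [← wSec_chain, h0, map_zero]
    have h2 : ∀ k, pderiv k P = 0 := by
      intro k
      refine ih _ (fun m hm => ?_) (congrFun h1 k)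
      rw [coeff_pderiv, hP _ (by
        rw [map_add, Finsupp.degree_single]
        omega), zero_mul]
    refine wSec_const F (fun m hm => ?_) h0
    obtain ⟨k, hk⟩ := Finsupp.ne_iff.1 hm
    rw [Finsupp.coe_zero, Pi.zero_apply] at hk
    have h3 : m = (m - Finsupp.single k 1) + Finsupp.single k 1 := by
      rw [tsub_add_cancel_of_le]
      rw [Finsupp.single_le_iff]
      omega
    generalize m - Finsupp.single k 1 = m' at h3
    have h4 := coeff_pderiv (i := k) P m'
    rw [h2 k, coeff_zero, ← h3] at h4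
    rcases mul_eq_zero.1 h4.symm with h5 | h5
    · exact h5
    · exfalso
      have h6 : ((m' k + 1 : ℕ) : ℂ) = 0 := by
        rw [← h5]
        push_cast
        ring
      rw [Nat.cast_eq_zero] at h6
      omega

/-! ### Proportional polynomials -/

theorem wSec_one_var {U H : Polynomial ℂ} (h : Polynomial.derivative U * H =
    U * Polynomial.derivative H) (hU : U.eval 0 = 0) (hH : H.eval 0 ≠ 0) : U = 0 := by
  by_contra hU0
  have hH0 : H ≠ 0 := by
    rintro rfl
    simp at hH
  have hroot : U.IsRoot 0 := hU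
  have h1 := Polynomial.derivative_rootMultiplicity_of_root hroot
  have hpos : 0 < U.rootMultiplicity 0 := (Polynomial.rootMultiplicity_pos hU0).2 hroot
  have hmH : H.rootMultiplicity 0 = 0 := Polynomial.rootMultiplicity_eq_zero hH
  have hU' : Polynomial.derivative U ≠ 0 := by
    intro h2
    have h3 := Polynomial.derivative_eq_zero.1 h2
    have h4 := Polynomial.eq_C_of_natDegree_eq_zero h3
    rw [h4, Polynomial.eval_C] at hU
    rw [hU, Polynomial.C_0] at h4
    exact hU0 h4
  have hne : Polynomial.derivative U * H ≠ 0 := mul_ne_zero hU' hH0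
  have hne2 : U * Polynomial.derivative H ≠ 0 := h ▸ hne
  have h5 := congrArg (Polynomial.rootMultiplicity 0) h
  rw [Polynomial.rootMultiplicity_mul hne, Polynomial.rootMultiplicity_mul hne2, h1, hmH] at h5
  omega

theorem wSec_line {n : ℕ} (x v : Fin n → ℂ) (p : MvPolynomial (Fin n) ℂ) :
    Polynomial.derivative (aeval (fun i => Polynomial.C (x i) + Polynomial.C (v i) *
      Polynomial.X) p) = ∑ i, Polynomial.C (v i) *
      aeval (fun i => Polynomial.C (x i) + Polynomial.C (v i) * Polynomial.X) (pderiv i p) := by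
  classical
  obtain ⟨y, hy⟩ : ∃ y : Fin n → Polynomial ℂ, y = fun i => Polynomial.C (x i) +
    Polynomial.C (v i) * Polynomial.X := ⟨_, rfl⟩
  have hy' : ∀ i, Polynomial.derivative (y i) = Polynomial.C (v i) := by
    intro i
    rw [hy]
    simp
  rw [← hy]
  clear hy
  induction p using MvPolynomial.induction_on with
  | C a =>
    simp [MvPolynomial.algHom_C, Polynomial.algebraMap_eq]
  | add p q hp hq =>
    simp only [map_add, hp, hq, mul_add, Finset.sum_add_distrib]
  | mul_X p k hp =>
    rw [map_mul, aeval_X, Polynomial.derivative_mul, hp, hy']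
    have h1 : ∀ i, Polynomial.C (v i) * aeval y (pderiv i (p * X k)) =
        Polynomial.C (v i) * aeval y (pderiv i p) * y k +
          (if i = k then Polynomial.C (v k) * aeval y p else 0) := by
      intro i
      rw [pderiv_mul, pderiv_X, map_add, map_mul, map_mul, aeval_X]
      by_cases hi : i = k
      · subst hi
        rw [Pi.single_eq_same, map_one, if_pos rfl]
        ring
      · rw [Pi.single_eq_of_ne (Ne.symm hi), map_zero, if_neg hi]
        ring
    rw [Finset.sum_congr rfl fun i _ => h1 i, Finset.sum_add_distrib, Finset.sum_ite_eq',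
      if_pos (Finset.mem_univ k), Finset.sum_mul]
    ring

theorem wSec_prop {n : ℕ} {g h : MvPolynomial (Fin n) ℂ}
    (hW : ∀ j, g * pderiv j h = h * pderiv j g) {x0 : Fin n → ℂ} (hx0 : eval x0 h ≠ 0) :
    g = C (eval x0 g / eval x0 h) * h := by
  obtain ⟨c, hc⟩ : ∃ c : ℂ, c = eval x0 g / eval x0 h := ⟨_, rfl⟩
  rw [← hc]
  obtain ⟨u, hu⟩ : ∃ u, u = g - C c * h := ⟨_, rfl⟩
  have hu0 : eval x0 u = 0 := by
    rw [hu, map_sub, map_mul, eval_C, hc, div_mul_cancel₀ _ hx0, sub_self]
  have huW : ∀ j, pderiv j u * h = u * pderiv j h := by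
    intro j
    rw [hu, map_sub, pderiv_C_mul]
    linear_combination -(hW j)
  have hu00 : u = 0 := by
    apply MvPolynomial.funext
    intro x1
    obtain ⟨y, hy⟩ : ∃ y : Fin n → Polynomial ℂ, y = fun i => Polynomial.C (x0 i) +
      Polynomial.C (x1 i - x0 i) * Polynomial.X := ⟨_, rfl⟩
    have hev : ∀ (t : ℂ) (p : MvPolynomial (Fin n) ℂ), (aeval y p).eval t =
        eval (fun i => x0 i + (x1 i - x0 i) * t) p := by
      intro t p
      have h1 : ((Polynomial.evalRingHom t).comp ((aeval y : MvPolynomial (Fin n) ℂ →ₐ[ℂ]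
          Polynomial ℂ) : MvPolynomial (Fin n) ℂ →+* Polynomial ℂ)) =
          eval (fun i => x0 i + (x1 i - x0 i) * t) := by
        apply MvPolynomial.ringHom_ext
        · intro r
          simp [MvPolynomial.algHom_C, Polynomial.algebraMap_eq]
        · intro i
          simp [hy]
      exact congrArg (fun φ => φ p) h1
    have h0 : aeval y u = 0 := by
      apply wSec_one_var (H := aeval y h)
      · rw [hy, wSec_line, wSec_line, ← hy, Finset.sum_mul, Finset.mul_sum]
        refine Finset.sum_congr rfl fun i _ => ?_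
        rw [mul_assoc, ← map_mul, huW i, map_mul]
        ring
      · rw [hev]
        simpa using hu0
      · rw [hev]
        simpa using hx0
    have h2 := hev 1 u
    rw [h0] at h2
    simpa using h2.symm
  rw [hu, sub_eq_zero] at hu00
  exact hu00

/-- the linear combination with coefficients `a` -/
noncomputable def wSec_comb {n ρ : ℕ} (f : Fin ρ → MvPolynomial (Fin n) ℂ) (a : Fin ρ → ℂ) :
    MvPolynomial (Fin n) ℂ := ∑ k, C (a k) * f k

theorem wSec_comb_hom {n ρ d : ℕ} {f : Fin ρ → MvPolynomial (Fin n) ℂ}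
    (hom : ∀ k, (f k).IsHomogeneous d) (a : Fin ρ → ℂ) : (wSec_comb f a).IsHomogeneous d := by
  refine IsHomogeneous.sum _ _ _ fun k _ => ?_
  have := (isHomogeneous_C (Fin n) (a k)).mul (hom k)
  rwa [zero_add] at this

theorem wSec_comb_ne {n ρ : ℕ} {f : Fin ρ → MvPolynomial (Fin n) ℂ}
    (hf : LinearIndependent ℂ f) {a : Fin ρ → ℂ} (ha : a ≠ 0) : wSec_comb f a ≠ 0 := by
  intro h
  apply ha
  funext k
  refine Fintype.linearIndependent_iff.mp hf a ?_ k
  rw [← h]
  unfold wSec_comb
  exact Finset.sum_congr rfl fun k _ => by rw [smul_eq_C_mul]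

theorem wSec_euler {n d : ℕ} {g : MvPolynomial (Fin n) ℂ} (hg : g.IsHomogeneous d) :
    ∑ i, X i * pderiv i g = C (d : ℂ) * g := by
  rw [hg.sum_X_mul_pderiv, nsmul_eq_mul, map_natCast]

theorem wSec_one {n ρ d : ℕ} (hd : d ≠ 0) {f : Fin ρ → MvPolynomial (Fin n) ℂ}
    (hf : LinearIndependent ℂ f) (hom : ∀ k, (f k).IsHomogeneous d) {a : Fin ρ → ℂ}
    (ha : a ≠ 0) : ∃ x i, eval x (pderiv i (wSec_comb f a)) ≠ 0 := by
  by_contra hcon
  push Not at hcon
  have h1 : ∀ i, pderiv i (wSec_comb f a) = 0 := fun i =>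
    MvPolynomial.funext fun x => by rw [hcon x i, map_zero]
  have h2 := wSec_euler (wSec_comb_hom hom a)
  simp only [h1, mul_zero, Finset.sum_const_zero] at h2
  have h3 := mul_eq_zero.1 h2.symm
  rcases h3 with h3 | h3
  · rw [← C_0] at h3
    have := C_injective _ _ h3
    exact hd (by exact_mod_cast this)
  · exact wSec_comb_ne hf ha h3

theorem wSec_two {n ρ d : ℕ} (hd : d ≠ 0) {f : Fin ρ → MvPolynomial (Fin n) ℂ}
    (hf : LinearIndependent ℂ f) (hom : ∀ k, (f k).IsHomogeneous d) {a b : Fin ρ → ℂ}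
    (hab : Ind a b) : ∃ x i j,
      eval x (pderiv i (wSec_comb f a)) * eval x (pderiv j (wSec_comb f b)) -
        eval x (pderiv j (wSec_comb f a)) * eval x (pderiv i (wSec_comb f b)) ≠ 0 := by
  by_contra hcon
  push Not at hcon
  obtain ⟨g, hg⟩ : ∃ g, g = wSec_comb f a := ⟨_, rfl⟩
  obtain ⟨h, hh⟩ : ∃ h, h = wSec_comb f b := ⟨_, rfl⟩
  rw [← hg, ← hh] at hcon
  have h1 : ∀ i j, pderiv i g * pderiv j h = pderiv j g * pderiv i h := by
    intro i j
    rw [← sub_eq_zero]
    apply MvPolynomial.funext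
    intro x
    rw [map_sub, map_mul, map_mul, hcon x i j, map_zero]
  have hg' : ∑ i, X i * pderiv i g = C (d : ℂ) * g := hg ▸ wSec_euler (wSec_comb_hom hom a)
  have hh' : ∑ i, X i * pderiv i h = C (d : ℂ) * h := hh ▸ wSec_euler (wSec_comb_hom hom b)
  have hC : (C (d : ℂ) : MvPolynomial (Fin n) ℂ) ≠ 0 := by
    intro h3
    rw [← C_0] at h3
    have := C_injective _ _ h3
    exact hd (by exact_mod_cast this)
  have h2 : ∀ j, g * pderiv j h = h * pderiv j g := by
    intro j
    apply mul_left_cancel₀ hC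
    calc C (d : ℂ) * (g * pderiv j h) = (∑ i, X i * pderiv i g) * pderiv j h := by
          rw [hg']; ring
      _ = (∑ i, X i * pderiv i h) * pderiv j g := by
          rw [Finset.sum_mul, Finset.sum_mul]
          refine Finset.sum_congr rfl fun i _ => ?_
          rw [mul_assoc, h1 i j]
          ring
      _ = _ := by rw [hh']; ring
  have hh0 : h ≠ 0 := hh ▸ wSec_comb_ne hf hab.right
  obtain ⟨x0, hx0⟩ := exists_eval_ne_zero hh0
  have h3 := wSec_prop h2 hx0
  obtain ⟨c, hc⟩ : ∃ c : ℂ, c = eval x0 g / eval x0 h := ⟨_, rfl⟩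
  rw [← hc] at h3
  have h4 : wSec_comb f (a - c • b) = 0 := by
    rw [hg, hh] at h3
    have h5 : wSec_comb f (a - c • b) = wSec_comb f a - C c * wSec_comb f b := by
      unfold wSec_comb
      rw [Finset.mul_sum, ← Finset.sum_sub_distrib]
      refine Finset.sum_congr rfl fun k _ => ?_
      simp only [Pi.sub_apply, Pi.smul_apply, smul_eq_mul, C_sub, C_mul]
      ring
    rw [h5, h3, sub_self]
  have h5 : a - c • b = 0 := by
    by_contra hne
    exact wSec_comb_ne hf hne h4
  obtain ⟨i, j, hij⟩ := hab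
  apply hij
  have h6 : a = c • b := sub_eq_zero.1 h5
  rw [h6]
  simp only [Pi.smul_apply, smul_eq_mul]
  ring

end Pool.Agent.Lib_helper97.Ebe
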